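import Mathlib

set_option autoImplicit false

open Filter Topology Complex MeasureTheory AddCircle Metric
open scoped Real ENNReal

namespace Pool.Agent.H.MP_6c36f4_an

abbrev TT := UnitAddCircle

abbrev EE := Fin 2 → ℂ

noncomputable abbrev mu : Measure TT := haarAddCircle

lemma fnorm (n : ℤ) (θ : TT) : ‖fourier n θ‖ = 1 := by rw [fourier_apply, Circle.norm_coe]

lemma fpow (t : ℕ) (x : TT) : fourier 1 x ^ t = fourier t x := by
  rw [fourier_one, fourier_apply, natCast_zsmul, toCircle_nsmul, Circle.coe_pow]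

noncomputable def cz (h : ℂ → ℂ) (k : ℤ) : ℂ :=
  if 0 ≤ k then (k.toNat.factorial : ℂ)⁻¹ * iteratedDeriv k.toNat h 0 else 0

lemma coef {h : ℂ → ℂ} {R : ℝ} (hd : DifferentiableOn ℂ h (ball 0 R)) {w : ℂ} (hw : ‖w‖ < R)
    (k : ℤ) : ∫ φ, fourier (-k) φ * h (fourier 1 φ * w) ∂mu = cz h k * w ^ k := by
  have h1 := fun φ : TT => (hasSum_taylorSeries_on_ball hd (z := fourier 1 φ * w)
    (by rwa [mem_ball_zero_iff, norm_mul, fnorm, one_mul])).mul_left (fourier (-k) φ)
  have h2 := (hasSum_taylorSeries_on_ball hd (mem_ball_zero_iff.2 hw)).summable.norm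
  simp only [sub_zero, smul_eq_mul, mul_pow, fpow] at h1 h2
  have h3 := hasSum_integral_of_summable_integral_norm (μ := mu) (F := fun (n : ℕ) (φ : TT) =>
    fourier (-k) φ * ((n.factorial : ℂ)⁻¹ * (fourier n φ * w ^ n * iteratedDeriv n h 0)))
    (fun n => Continuous.integrable_of_hasCompactSupport (by fun_prop)
      (HasCompactSupport.of_compactSpace _)) (by simpa [fnorm] using h2)
  simp only [(h1 _).tsum_eq] at h3
  have h4 : ∀ n : ℕ, ∫ φ, fourier (-k) φ * ((n.factorial : ℂ)⁻¹ * (fourier n φ * w ^ n *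
      iteratedDeriv n h 0)) ∂mu = if k = n then (n.factorial : ℂ)⁻¹ * iteratedDeriv n h 0 * w ^ n
      else 0 := fun n => by
    have := congrFun (fourierCoeff_fourier (T := 1) n) k
    rw [Pi.single_apply, fourierCoeff] at this
    rw [← mul_one (_ * w ^ n), ← mul_ite_zero, ← this, ← integral_const_mul]
    simp only [smul_eq_mul]
    congr 1
    funext φ
    ring
  simp only [h4] at h3
  unfold cz
  split_ifs with hk
  · lift k to ℕ using hk
    simpa using h3.unique (hasSum_single k fun n hn => if_neg (by exact_mod_cast hn.symm))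
  · simp only [if_neg fun e : k = (_ : ℕ) => hk (e ▸ Int.natCast_nonneg _)] at h3
    simpa using h3.unique hasSum_zero

lemma uniq {F : TT → ℂ} (hF : Continuous F) (i : ℤ) (h : ∀ j ≠ i, fourierCoeff F j = 0) :
    F 0 = fourierCoeff F i := by
  have := has_pointwise_sum_fourier_series_of_summable (f := ⟨F, hF⟩) (hasSum_single i h).summable 0
  simp only [fourier_eval_zero, smul_eq_mul, mul_one] at this
  exact this.unique (hasSum_single i h)

noncomputable def al (n : ℕ) : ℝ := 1 / (32 ^ n * (n + 1) ^ 2)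

lemma al_pos (n : ℕ) : 0 < al n := by unfold al; positivity

def Om : Set EE := {x | ∃ n : ℕ, (‖x 0‖ < 4 ^ n ∧ ‖x 1‖ < 1 / 3 ^ n) ∨
  ((1 < ‖x 0‖ ∧ ‖x 0‖ < √(1 + al n)) ∧ ‖x 1‖ < 2 ^ n)}

lemma Om_open : IsOpen Om := by
  rw [Om, Set.ofPred_exists]
  have h := fun i : Fin 2 => (continuous_apply (A := fun _ => ℂ) i).norm
  exact isOpen_iUnion fun n => ((isOpen_lt (h 0) continuous_const).inter
    (isOpen_lt (h 1) continuous_const)).union (((isOpen_lt continuous_const (h 0)).inter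
    (isOpen_lt (h 0) continuous_const)).inter (isOpen_lt (h 1) continuous_const))

lemma Om_fib {x : EE} (hx : x ∈ Om) :
    ∃ R, ‖x 1‖ < R ∧ ∀ y : EE, ‖y 0‖ = ‖x 0‖ → ‖y 1‖ < R → y ∈ Om := by
  obtain ⟨n, h | h⟩ := hx
  · exact ⟨_, h.2, fun y e k => ⟨n, Or.inl ⟨e ▸ h.1, k⟩⟩⟩
  · exact ⟨_, h.2, fun y e k => ⟨n, Or.inr ⟨e ▸ h.1, k⟩⟩⟩

lemma Om_ax (z : ℂ) : ∃ n : ℕ, ‖z‖ < 4 ^ n := pow_unbounded_of_one_lt _ (by norm_num)

lemma Om_conn : IsConnected Om := by
  have h0 : ∀ x : EE, x 1 = 0 → x ∈ Om := fun x h =>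
    (Om_ax (x 0)).imp fun n k => Or.inl ⟨k, by simp [h]⟩
  refine ⟨⟨0, h0 0 rfl⟩, isPreconnected_of_forall 0 fun x hx => ?_⟩
  obtain ⟨R, h1, h2⟩ := Om_fib hx
  have c1 : Convex ℝ {y : EE | y 1 = 0} := (convex_singleton 0).is_linear_preimage
    (LinearMap.proj (R := ℝ) (φ := fun _ : Fin 2 => ℂ) 1).isLinear
  have c2 : Convex ℝ ({y : EE | y 0 = x 0} ∩ {y | y 1 ∈ ball 0 R}) :=
    ((convex_singleton _).is_linear_preimage
      (LinearMap.proj (R := ℝ) (φ := fun _ : Fin 2 => ℂ) 0).isLinear).inter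
      ((convex_ball 0 R).is_linear_preimage
        (LinearMap.proj (R := ℝ) (φ := fun _ : Fin 2 => ℂ) 1).isLinear)
  refine ⟨{y : EE | y 1 = 0} ∪ ({y : EE | y 0 = x 0} ∩ {y | y 1 ∈ ball 0 R}), Set.union_subset h0 fun y hy => h2 y (congrArg _ hy.1) (mem_ball_zero_iff.1 hy.2),
    Or.inl rfl, Or.inr (Set.mem_inter rfl (mem_ball_zero_iff.2 h1)),
    c1.isPreconnected.union ![x 0, 0] rfl (Set.mem_inter rfl ?_) c2.isPreconnected⟩
  simpa using (norm_nonneg _).trans_lt h1

noncomputable def rot (t : TT × TT) (x : EE) : EE := ![fourier 1 t.1 * x 0, fourier 1 t.2 * x 1]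

lemma rot_cont : Continuous fun z : (TT × TT) × EE => rot z.1 z.2 := by
  refine continuous_pi fun i => ?_
  fin_cases i <;> simp only [rot, Fin.zero_eta, Fin.mk_one, Matrix.cons_val_zero,
    Matrix.cons_val_one] <;> fun_prop

lemma rot_norm (t : TT × TT) (x : EE) (i : Fin 2) : ‖rot t x i‖ = ‖x i‖ := by
  fin_cases i <;> simp [rot]

lemma rot_mem (t : TT × TT) {x : EE} (hx : x ∈ Om) : rot t x ∈ Om := by
  simpa only [Om, Set.mem_ofPred_eq, rot_norm] using hx

lemma rot_mp (t : TT × TT) : MeasurePreserving (rot t) := by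
  have := volume_preserving_pi (f := fun (i : Fin 2) (z : ℂ) => rotation (toCircle (![t.1, t.2] i)) z)
    fun i => (rotation _).measurePreserving
  convert this using 1
  funext x i
  fin_cases i <;> simp [rot]

noncomputable def GG (g : EE → ℂ) (j k : ℤ) (x : EE) : ℂ :=
  ∫ t, fourier (-j) t.1 * (fourier (-k) t.2 * g (rot t x)) ∂mu.prod mu

variable {g : EE → ℂ}

lemma g_cont (hg : DifferentiableOn ℂ g Om) {x : EE} (hx : x ∈ Om) :
    Continuous fun t => g (rot t x) :=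
  hg.continuousOn.comp_continuous (rot_cont.comp (Continuous.prodMk_left x)) fun t => rot_mem t hx

lemma g_int (hg : DifferentiableOn ℂ g Om) {x : EE} (hx : x ∈ Om) (j k : ℤ) : Integrable
    (fun t => fourier (-j) t.1 * (fourier (-k) t.2 * g (rot t x))) (mu.prod mu) := by
  have := g_cont hg hx
  exact Continuous.integrable_of_hasCompactSupport (((map_continuous _).comp continuous_fst).mul
    (((map_continuous _).comp continuous_snd).mul this))
    (HasCompactSupport.of_compactSpace _)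

lemma GG1 (hg : DifferentiableOn ℂ g Om) {x : EE} (hx : x ∈ Om) (j k : ℤ) : GG g j k x =
    (∫ θ, fourier (-j) θ * cz (fun w => g ![fourier 1 θ * x 0, w]) k ∂mu) * x 1 ^ k := by
  obtain ⟨R, h1, h2⟩ := Om_fib hx
  rw [GG, integral_prod _ (g_int hg hx j k), ← integral_mul_const]
  congr 1
  funext θ
  rw [mul_assoc, ← coef (R := R) _ h1, ← integral_const_mul]
  · rfl
  refine hg.comp (Differentiable.differentiableOn ?_) fun w hw =>
    h2 _ (by simp) (mem_ball_zero_iff.1 hw)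
  refine differentiable_pi.2 fun i => ?_
  fin_cases i <;> simp

lemma GG2 (hg : DifferentiableOn ℂ g Om) {x : EE} {n : ℕ} (h1 : ‖x 0‖ < 4 ^ n)
    (h2 : ‖x 1‖ < 1 / 3 ^ n) (j k : ℤ) : GG g j k x =
    (∫ φ, fourier (-k) φ * cz (fun z => g ![z, fourier 1 φ * x 1]) j ∂mu) * x 0 ^ j := by
  rw [GG, integral_prod_symm _ (g_int hg ⟨n, Or.inl ⟨h1, h2⟩⟩ j k), ← integral_mul_const]
  congr 1
  funext θ
  rw [mul_assoc, ← coef _ h1, ← integral_const_mul]
  · simp only [mul_left_comm]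
    rfl
  refine hg.comp (Differentiable.differentiableOn ?_) fun w hw =>
    ⟨n, Or.inl ⟨mem_ball_zero_iff.1 hw, by simpa using h2⟩⟩
  refine differentiable_pi.2 fun i => ?_
  fin_cases i <;> simp

lemma GG3 (hg : DifferentiableOn ℂ g Om) (j k : ℤ) : ∃ c : ℂ, (j < 0 ∨ k < 0 → c = 0) ∧
    ∀ x ∈ Om, GG g j k x = c * x 0 ^ j * x 1 ^ k := by
  have h : ∀ n : ℕ, ∃ c : ℂ, (j < 0 → c = 0) ∧ ∀ z : ℂ, ‖z‖ < 4 ^ n →
      ∫ θ, fourier (-j) θ * cz (fun w => g ![fourier 1 θ * z, w]) k ∂mu = c * z ^ j := fun n => by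
    have s1 : ‖(1 / 3 ^ n / 2 : ℂ)‖ < 1 / 3 ^ n := by simp
    have s2 : (1 / 3 ^ n / 2 : ℂ) ^ k ≠ 0 := zpow_ne_zero _ (by simp)
    refine ⟨(∫ φ, fourier (-k) φ * cz (fun z => g ![z, fourier 1 φ * (1 / 3 ^ n / 2)]) j ∂mu) /
      (1 / 3 ^ n / 2 : ℂ) ^ k, fun hj => by simp [cz, hj.not_ge], fun z hz => ?_⟩
    rw [div_mul_eq_mul_div, eq_div_iff s2]
    exact (GG1 hg (x := ![z, 1 / 3 ^ n / 2]) ⟨n, Or.inl ⟨hz, s1⟩⟩ j k).symm.trans
      (GG2 hg (x := ![z, 1 / 3 ^ n / 2]) hz s1 j k)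
  choose c h1 h2 using h
  have e : ∀ n, c n = c 0 := fun n => mul_right_cancel₀ (zpow_ne_zero j (by simp))
    ((h2 n (1 / 2) (lt_of_lt_of_le (by norm_num) (one_le_pow₀ (by norm_num)))).symm.trans
      (h2 0 (1 / 2) (by norm_num)))
  refine ⟨c 0, fun h => h.elim (h1 0) fun hk => ?_, fun x hx => ?_⟩
  · have := h2 0 (1 / 2) (by norm_num)
    simpa [cz, hk.not_ge, zpow_ne_zero] using this
  · obtain ⟨n, hn⟩ := Om_ax (x 0)
    rw [GG1 hg hx, h2 n _ hn, e]

def An (a b : ℝ) : Set ℂ := {z | a < ‖z‖ ∧ ‖z‖ < b}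

def Bx (s t : Set ℂ) : Set EE := Set.univ.pi ![s, t]

lemma mem_Bx {s t : Set ℂ} {x : EE} : x ∈ Bx s t ↔ x 0 ∈ s ∧ x 1 ∈ t := by
  simp [Bx, Fin.forall_fin_two]

lemma vol_Bx (s t : Set ℂ) : volume (Bx s t) = volume s * volume t := by
  simp [Bx, volume_pi_pi]

lemma An_open (a b : ℝ) : IsOpen (An a b) :=
  (isOpen_lt continuous_const continuous_norm).inter (isOpen_lt continuous_norm continuous_const)

lemma Bx_meas {s t : Set ℂ} (hs : IsOpen s) (ht : IsOpen t) : MeasurableSet (Bx s t) :=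
  MeasurableSet.univ_pi (Fin.forall_fin_two.2 ⟨hs.measurableSet, ht.measurableSet⟩)

lemma vol_ball {b : ℝ} (h : 0 ≤ b) : volume (ball (0 : ℂ) b) = ENNReal.ofReal (π * b ^ 2) := by
  rw [Complex.volume_ball, mul_comm π, ENNReal.ofReal_mul (by positivity), ENNReal.ofReal_pow h,
    ← NNReal.coe_real_pi, ENNReal.ofReal_coe_nnreal]

lemma vol_An {a b : ℝ} (ha : 0 ≤ a) (h : a < b) :
    volume (An a b) = ENNReal.ofReal (π * (b ^ 2 - a ^ 2)) := by
  have : An a b = ball 0 b \ closedBall 0 a := by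
    ext z
    simp [An, and_comm]
  rw [this, measure_sdiff (closedBall_subset_ball h) measurableSet_closedBall.nullMeasurableSet
    measure_closedBall_lt_top.ne, Measure.addHaar_closedBall_eq_addHaar_ball, vol_ball ha,
    vol_ball (ha.trans h.le), mul_sub, ENNReal.ofReal_sub _ (by positivity)]

lemma low (hg : DifferentiableOn ℂ g Om) {j k : ℤ} {a b c d m V : ℝ} (hV : 0 < V)
    (h1 : Bx (An a b) (An c d) ⊆ Om) (h2 : volume (Bx (An a b) (An c d)) = ENNReal.ofReal V)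
    (h3 : ∀ x ∈ Bx (An a b) (An c d), m ≤ ‖GG g j k x‖) :
    ENNReal.ofReal (m * √V) ≤ eLpNorm g 2 (volume.restrict Om) := by
  classical
  set B := Bx (An a b) (An c d)
  have hB : MeasurableSet B := Bx_meas (An_open _ _) (An_open _ _)
  have gm : Measurable (Om.piecewise g 0) :=
    hg.continuousOn.measurable_piecewise continuousOn_const Om_open.measurableSet
  have k1 : ENNReal.ofReal m * volume B ≤
      ∫⁻ x in B, ∫⁻ t, ‖Om.piecewise g 0 (rot t x)‖ₑ ∂mu.prod mu := by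
    rw [← setLIntegral_const]
    refine setLIntegral_mono' hB fun x hx => (ENNReal.ofReal_le_ofReal (h3 x hx)).trans ?_
    rw [ofReal_norm]
    refine (enorm_integral_le_lintegral_enorm _).trans_eq (lintegral_congr fun t => ?_)
    rw [Set.piecewise_eq_of_mem _ _ _ (rot_mem t (h1 hx)), ← ofReal_norm, ← ofReal_norm, norm_mul,
      norm_mul, fnorm, fnorm, one_mul, one_mul]
  have k2 : ∀ t, ∫⁻ x in B, ‖Om.piecewise g 0 (rot t x)‖ₑ = eLpNorm g 1 (volume.restrict B) :=
    fun t => by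
    have e : rot t ⁻¹' B = B := by
      ext x
      simp only [B, Set.mem_preimage, mem_Bx, An, Set.mem_ofPred_eq, rot_norm]
    have := (rot_mp t).setLIntegral_comp_preimage hB gm.enorm
    rw [e] at this
    rw [this, eLpNorm_one_eq_lintegral_enorm]
    exact setLIntegral_congr_fun hB fun x hx => by rw [Set.piecewise_eq_of_mem _ _ _ (h1 hx)]
  rw [lintegral_lintegral_swap (gm.comp (rot_cont.comp continuous_swap).measurable).enorm.aemeasurable]
    at k1
  simp only [k2, lintegral_const, measure_univ, mul_one] at k1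
  have k3 := k1.trans ((eLpNorm_le_eLpNorm_mul_rpow_measure_univ one_le_two
    ((hg.continuousOn.mono h1).aestronglyMeasurable hB)).trans (mul_le_mul_left
    (eLpNorm_mono_measure g (Measure.restrict_mono h1 le_rfl)) _))
  have V0 := Real.sqrt_pos.2 hV
  rw [Measure.restrict_apply_univ, h2, ENNReal.ofReal_rpow_of_pos hV,
    show 1 / (1 : ℝ≥0∞).toReal - 1 / (2 : ℝ≥0∞).toReal = 1 / 2 by norm_num, ← Real.sqrt_eq_rpow,
    ← ENNReal.ofReal_mul' hV.le] at k3
  refine (ENNReal.mul_le_mul_iff_left (ENNReal.ofReal_pos.2 V0).ne' ENNReal.ofReal_ne_top).1 ?_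
  rwa [← ENNReal.ofReal_mul' V0.le, mul_assoc, Real.mul_self_sqrt hV.le]

def bS (n : ℕ) : Set EE := Bx (An 1 √(1 + al n)) (An (2 ^ n / 2) (2 ^ n))

noncomputable def VV (n : ℕ) : ℝ := π * al n * (π * ((2 ^ n) ^ 2 - (2 ^ n / 2) ^ 2))

lemma VV_eq (n : ℕ) : VV n = 3 * π ^ 2 / 4 / ((2 ^ n) ^ 3 * (n + 1) ^ 2) := by
  rw [VV, al, show (32 : ℝ) ^ n = (2 ^ n) ^ 5 by rw [← pow_mul, mul_comm, pow_mul]; norm_num]
  field_simp
  ring

lemma VV_pos (n : ℕ) : 0 < VV n := by rw [VV_eq]; positivity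

lemma vol_al (n : ℕ) : volume (An 1 √(1 + al n)) = ENNReal.ofReal (π * al n) := by
  have := al_pos n
  rw [vol_An zero_le_one (Real.lt_sqrt_of_sq_lt (by linarith)), Real.sq_sqrt (by linarith)]
  simp

lemma vol_bS (n : ℕ) : volume (bS n) = ENNReal.ofReal (VV n) := by
  have := al_pos n
  rw [bS, vol_Bx, vol_al, vol_An (by positivity) (half_lt_self (by positivity)),
    ← ENNReal.ofReal_mul (by positivity), VV]

lemma bS_sub (n : ℕ) : bS n ⊆ Om := fun _ hx =>
  ⟨n, Or.inr ⟨(mem_Bx.1 hx).1, (mem_Bx.1 hx).2.2⟩⟩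

lemma bS_meas (n : ℕ) : MeasurableSet (bS n) := Bx_meas (An_open _ _) (An_open _ _)

lemma gro {s : ℝ} (hs : 3 * s < 1) :
    Tendsto (fun n : ℕ => 2 ^ n * VV n ^ s) atTop atTop := by
  have h1 : (1 : ℝ) < 2 ^ (1 - 3 * s) := Real.one_lt_rpow one_lt_two (by linarith)
  have l := (((tendsto_pow_const_div_const_pow_of_one_lt 2 h1).comp
    (tendsto_add_atTop_nat 1)).const_mul (2 ^ (1 - 3 * s) / (3 * π ^ 2 / 4) ^ s))
  rw [mul_zero] at l
  refine tendsto_atTop_mono (fun n => ?_) (tendsto_nhdsWithin_iff.2 ⟨l, Eventually.of_forall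
    fun n => Set.mem_Ioi.2 (by dsimp; positivity)⟩).inv_tendsto_nhdsGT_zero
  have e : ((2 : ℝ) ^ n) ^ 3 = 2 ^ (3 * n : ℝ) := by
    rw [← pow_mul, ← Real.rpow_natCast]; push_cast; rw [mul_comm]
  have e2 : ((2 : ℝ) ^ (1 - 3 * s)) ^ n = 2 ^ n / 2 ^ (3 * n * s) := by
    rw [← Real.rpow_natCast, ← Real.rpow_mul two_pos.le, ← Real.rpow_natCast 2,
      ← Real.rpow_sub two_pos]
    congr 1
    ring
  have e3 : (((n : ℝ) + 1) ^ 2) ^ s ≤ (n + 1) ^ 2 :=
    Real.rpow_le_self_of_one_le (one_le_pow₀ (by linarith [n.cast_nonneg (α := ℝ)])) (by linarith)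
  simp only [Pi.inv_apply, Function.comp, pow_succ _ n, e2, VV_eq, e]
  rw [Real.div_rpow (y := _ * _) (by positivity) (by positivity), Real.mul_rpow (x := 2 ^ _)
    (by positivity) (by positivity), ← Real.rpow_mul two_pos.le]
  calc _ = 2 ^ n * ((3 * π ^ 2 / 4) ^ s / (2 ^ (3 * n * s) * (n + 1) ^ 2)) := by
        push_cast
        field_simp
    _ ≤ _ := by gcongr

lemma span (hg : DifferentiableOn ℂ g Om) (h2 : MemLp g 2 (volume.restrict Om)) :
    ∃ c : ℂ, ∀ x ∈ Om, g x = c * x 1 := by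
  choose c c1 c2 using GG3 hg
  have b : ∀ u : ℕ → ℝ, Tendsto u atTop atTop → ∀ j k, (∀ᶠ n in atTop,
      ENNReal.ofReal (‖c j k‖ * u n) ≤ eLpNorm g 2 (volume.restrict Om)) → c j k = 0 :=
    fun u hu j k h => by
    by_contra e
    obtain ⟨n, h1, h3⟩ := (h.and ((hu.const_mul_atTop (norm_pos_iff.2 e)).eventually_gt_atTop
      (eLpNorm g 2 (volume.restrict Om)).toReal)).exists
    exact h3.not_ge ((ENNReal.ofReal_le_iff_le_toReal h2.2.ne).1 h1)
  have c3 : ∀ j k, j ≠ 0 ∨ k ≠ 1 → c j k = 0 := fun j k h => by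
    rcases lt_or_ge j 0 with hj | hj
    · exact c1 j k (Or.inl hj)
    rcases lt_or_ge k 0 with hk | hk
    · exact c1 j k (Or.inr hk)
    lift j to ℕ using hj
    lift k to ℕ using hk
    rcases le_or_gt 2 k with h2 | h2
    · have l := ((gro (s := 1 / 4) (by norm_num)).atTop_mul_atTop₀
        (gro (s := 1 / 4) (by norm_num))).atTop_div_const four_pos
      refine b _ l j k ?_
      filter_upwards [eventually_ge_atTop 1] with n hn
      refine le_trans (le_of_eq ?_) (low hg (j := j) (k := k) (m := ‖c j k‖ * (2 ^ n / 2) ^ 2)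
        (VV_pos n) (bS_sub n) (vol_bS n) fun x hx => ?_)
      · rw [Real.sqrt_eq_rpow, show (1 / 2 : ℝ) = 1 / 4 + 1 / 4 by norm_num,
          Real.rpow_add (VV_pos n)]
        congr 1
        ring
      · have a1 := (mem_Bx.1 hx).1.1.le
        have a2 := (mem_Bx.1 hx).2.1.le
        have a3 : (2 : ℝ) ^ 1 ≤ 2 ^ n := pow_le_pow_right₀ one_le_two hn
        rw [c2 j k x (bS_sub n hx), norm_mul, norm_mul, zpow_natCast, zpow_natCast, norm_pow,
          norm_pow, mul_assoc]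
        gcongr
        exact le_trans (le_trans (by gcongr) (pow_le_pow_right₀ (by linarith) h2))
          (le_mul_of_one_le_left (by positivity) (one_le_pow₀ a1))
    · have l := (Real.tendsto_sqrt_atTop.comp ((tendsto_pow_atTop_atTop_of_one_lt (by norm_num :
        (1 : ℝ) < 16 / 9)).const_mul_atTop (by positivity : 0 < 9 * π ^ 2 / 16))).const_mul_atTop
        (by norm_num : (0 : ℝ) < 1 / 4)
      refine b _ l j k ?_
      filter_upwards [eventually_ge_atTop 1] with n hn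
      have s1 : Bx (An (4 ^ n / 2) (4 ^ n)) (An (1 / 3 ^ n / 2) (1 / 3 ^ n)) ⊆ Om := fun _ hx =>
        ⟨n, Or.inl ⟨(mem_Bx.1 hx).1.2, (mem_Bx.1 hx).2.2⟩⟩
      rw [← mul_assoc]
      refine low hg (j := j) (k := k) (V := 9 * π ^ 2 / 16 * (16 / 9) ^ n) (by positivity) s1 ?_
        fun x hx => ?_
      · rw [vol_Bx, vol_An (by positivity) (half_lt_self (by positivity)), vol_An (by positivity)
          (half_lt_self (by positivity)), ← ENNReal.ofReal_mul' (mul_nonneg Real.pi_pos.le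
          (by nlinarith [sq_nonneg (1 / 3 ^ n : ℝ)])),
          div_pow (16 : ℝ),
          show (16 : ℝ) ^ n = (4 ^ n) ^ 2 by rw [← pow_mul, mul_comm, pow_mul]; norm_num,
          show (9 : ℝ) ^ n = (3 ^ n) ^ 2 by rw [← pow_mul, mul_comm, pow_mul]; norm_num]
        congr 1
        field_simp
        ring
      · have a1 := (mem_Bx.1 hx).1.1.le
        have a2 := (mem_Bx.1 hx).2.1.le
        have a3 : (4 : ℝ) ^ 1 ≤ 4 ^ n := pow_le_pow_right₀ (by norm_num) hn
        have a4 : (1 : ℝ) ≤ ‖x 0‖ := by linarith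
        rw [c2 j k x (s1 hx), norm_mul, norm_mul, zpow_natCast, zpow_natCast, norm_pow,
          norm_pow, mul_assoc]
        gcongr
        interval_cases k
        · linarith [one_le_pow₀ (n := j) a4, pow_zero ‖x 1‖, mul_one (‖x 0‖ ^ j)]
        · have a5 := le_self_pow₀ a4 (n := j) (by simpa using h)
          have a6 : (3 : ℝ) ^ n ≤ 4 ^ n := by gcongr; norm_num
          calc (1 / 4 : ℝ) = 3 ^ n / 2 * (1 / 3 ^ n / 2) := by field_simp; norm_num
            _ ≤ _ := by rw [pow_one]; gcongr; linarith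
  refine ⟨c 0 1, fun x hx => ?_⟩
  have gc := g_cont hg hx
  have e : ∀ j k, fourierCoeff (fun θ => fourierCoeff (fun ψ => g (rot (θ, ψ) x)) k) j =
      c j k * x 0 ^ j * x 1 ^ k := fun j k => by
    rw [← c2 j k x hx, GG, integral_prod _ (g_int hg hx j k)]
    simp only [fourierCoeff, smul_eq_mul, integral_const_mul]
  have e2 : ∀ k, fourierCoeff (fun ψ => g (rot (0, ψ) x)) k = c 0 k * x 1 ^ k := fun k => by
    have := uniq (F := fun θ => fourierCoeff (fun ψ => g (rot (θ, ψ) x)) k) (by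
      simpa only [Measure.restrict_univ, fourierCoeff] using continuous_parametric_integral_of_continuous
        (μ := mu) (f := fun θ ψ => fourier (-k) ψ • g (rot (θ, ψ) x))
        (((map_continuous (fourier (-k))).comp continuous_snd).smul gc :) isCompact_univ) 0
      fun j hj => by rw [e, c3 j k (Or.inl hj), zero_mul, zero_mul]
    rwa [e, zpow_zero, mul_one] at this
  have := uniq (F := fun ψ => g (rot (0, ψ) x)) (gc.comp (Continuous.prodMk_right 0)) 1
    fun k hk => by rw [e2, c3 0 k (Or.inr hk), zero_mul]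
  rw [e2, zpow_one] at this
  rw [← this]
  congr 1
  funext i
  fin_cases i <;> simp [rot]

lemma w_mem {p : ℝ} (h1 : 1 ≤ p) (h3 : p ≤ 3) :
    MemLp (fun x : EE => x 1) (ENNReal.ofReal p) (volume.restrict Om) := by
  have hp : 0 < p := by linarith
  refine ⟨(continuous_apply 1).aestronglyMeasurable, ?_⟩
  rw [eLpNorm_lt_top_iff_lintegral_rpow_enorm_lt_top (by simpa using hp) ENNReal.ofReal_ne_top,
    ENNReal.toReal_ofReal hp.le]
  have k : ∀ (s : Set ℂ) (R M : ℝ), IsOpen s → R ^ p ≤ M → 0 ≤ R → ∫⁻ x in Bx s (ball 0 R),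
      ‖x 1‖ₑ ^ p ≤ ENNReal.ofReal M * (volume s * ENNReal.ofReal (π * R ^ 2)) :=
    fun s R M hs h h0 => by
    rw [← vol_ball h0, ← vol_Bx, ← setLIntegral_const]
    refine setLIntegral_mono' (Bx_meas hs isOpen_ball) fun x hx => ?_
    rw [← ofReal_norm, ENNReal.ofReal_rpow_of_nonneg (norm_nonneg _) hp.le]
    exact ENNReal.ofReal_le_ofReal (le_trans (Real.rpow_le_rpow (norm_nonneg _)
      (mem_ball_zero_iff.1 (mem_Bx.1 hx).2).le hp.le) h)
  have s : Summable fun n : ℕ => π ^ 2 * (16 / 27) ^ n + π ^ 2 * (1 / ((n + 1 : ℕ) : ℝ) ^ 2) :=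
    ((summable_geometric_of_lt_one (by norm_num) (by norm_num)).mul_left _).add
      (((summable_nat_add_iff 1).2 (Real.summable_one_div_nat_pow.2 one_lt_two)).mul_left _)
  refine lt_of_le_of_lt ((lintegral_mono_set (t := ⋃ n : ℕ, (Bx (ball 0 (4 ^ n))
    (ball 0 (1 / 3 ^ n)) ∪ Bx (An 1 √(1 + al n)) (ball 0 (2 ^ n)))) fun x hx =>
    Set.mem_iUnion.2 (hx.imp fun n hn => by simpa [mem_Bx, An] using hn)).trans ((lintegral_iUnion_le _ _).trans
    (ENNReal.tsum_le_tsum fun n => (lintegral_union_le _ _ _).trans ?_))) s.tsum_ofReal_lt_top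
  have := al_pos n
  rw [ENNReal.ofReal_add (by positivity) (by positivity)]
  refine add_le_add ((k _ _ _ isOpen_ball (Real.rpow_le_self_of_le_one (by positivity)
    (div_le_one_of_le₀ (one_le_pow₀ (by norm_num)) (by positivity)) h1) (by positivity)).trans_eq ?_)
    ((k _ _ ((2 ^ n) ^ 3) (An_open _ _) (by
      rw [← Real.rpow_natCast _ 3]
      exact Real.rpow_le_rpow_of_exponent_le (one_le_pow₀ one_le_two) (by simpa using h3))
      (by positivity)).trans_eq ?_)
  · rw [vol_ball (by positivity), ← ENNReal.ofReal_mul (by positivity),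
      ← ENNReal.ofReal_mul (by positivity), div_pow 16,
      show (16 : ℝ) ^ n = (4 ^ n) ^ 2 by rw [← pow_mul, mul_comm, pow_mul]; norm_num,
      show (27 : ℝ) ^ n = (3 ^ n) ^ 3 by rw [← pow_mul, mul_comm, pow_mul]; norm_num]
    congr 1
    field_simp
  · rw [vol_al, ← ENNReal.ofReal_mul (by positivity), ← ENNReal.ofReal_mul (by positivity), al,
      show (32 : ℝ) ^ n = (2 ^ n) ^ 5 by rw [← pow_mul, mul_comm, pow_mul]; norm_num]
    congr 1
    push_cast
    field_simp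

lemma ind_norm {p : ℝ} (hp : 0 < p) (n : ℕ) {c : ℝ} (hc : 0 ≤ c) :
    eLpNorm ((bS n).indicator fun _ => c) (ENNReal.ofReal p) (volume.restrict Om) =
      ENNReal.ofReal (c * VV n ^ (1 / p)) := by
  rw [eLpNorm_indicator_const (bS_meas n) (by simpa using hp) ENNReal.ofReal_ne_top,
    Measure.restrict_eq_self _ (bS_sub n), vol_bS, ENNReal.toReal_ofReal hp.le,
    ENNReal.ofReal_rpow_of_pos (VV_pos n), Real.enorm_eq_ofReal hc, ← ENNReal.ofReal_mul hc]

lemma w_low {p : ℝ} (hp : 0 < p) (n : ℕ) : ENNReal.ofReal (2 ^ n / 2 * VV n ^ (1 / p)) ≤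
    eLpNorm (fun x : EE => x 1) (ENNReal.ofReal p) (volume.restrict Om) := by
  rw [← ind_norm hp n (by positivity)]
  refine eLpNorm_mono fun x => ?_
  by_cases hx : x ∈ bS n
  · rw [Set.indicator_of_mem hx, Real.norm_of_nonneg (by positivity)]
    exact (mem_Bx.1 hx).2.1.le
  · simp [hx]

lemma w_up {p : ℝ} (hp : 0 < p) (n : ℕ) : eLpNorm ((bS n).indicator fun x : EE => x 1)
    (ENNReal.ofReal p) (volume.restrict Om) ≤ ENNReal.ofReal (2 ^ n * VV n ^ (1 / p)) := by
  rw [← ind_norm hp n (by positivity)]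
  refine eLpNorm_mono fun x => ?_
  by_cases hx : x ∈ bS n
  · rw [Set.indicator_of_mem hx, Set.indicator_of_mem hx, Real.norm_of_nonneg (by positivity)]
    exact (mem_Bx.1 hx).2.2.le
  · simp [hx]

end Pool.Agent.H.MP_6c36f4_an
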